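import Mathlib

set_option autoImplicit false

namespace Run7.h735

open Finset

variable {k : ℕ}

/-- product of the multipliers along a word -/
def A (m : Fin k → ℕ) (w : List (Fin k)) : ℕ := (w.map m).prod

/-- `G_{w_1}(G_{w_2}(...(0)))` with `G_i(y) = (y + b_i) / m_i` -/
noncomputable def val (m : Fin k → ℕ) (b : Fin k → ℝ) : List (Fin k) → ℝ
  | [] => 0
  | i :: w => (val m b w + b i) / m i

@[simp] lemma A_nil (m : Fin k → ℕ) : A m [] = 1 := rfl

@[simp] lemma A_cons (m : Fin k → ℕ) (i : Fin k) (w : List (Fin k)) :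
    A m (i :: w) = m i * A m w := by simp [A]

lemma A_append (m : Fin k → ℕ) (w z : List (Fin k)) : A m (w ++ z) = A m w * A m z := by
  simp [A]

lemma A_pos (m : Fin k → ℕ) (hm : ∀ i, 2 ≤ m i) (w : List (Fin k)) : 0 < A m w := by
  induction w with
  | nil => simp
  | cons i w ih => rw [A_cons]; exact Nat.mul_pos (by have := hm i; omega) ih

lemma val_append (m : Fin k → ℕ) (hm : ∀ i, 2 ≤ m i) (b : Fin k → ℝ) (w z : List (Fin k)) :
    val m b (w ++ z) = val m b w + val m b z / A m w := by
  induction w with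
  | nil => simp [val]
  | cons i w ih =>
    have h1 : (m i : ℝ) ≠ 0 := by have := hm i; positivity
    have h2 : (A m w : ℝ) ≠ 0 := by have := A_pos m hm w; positivity
    simp only [List.cons_append, val, ih, A_cons]
    push_cast
    field_simp
    ring

lemma val_add (m : Fin k → ℕ) (b c : Fin k → ℝ) (w : List (Fin k)) :
    val m (b + c) w = val m b w + val m c w := by
  induction w with
  | nil => simp [val]
  | cons i w ih => simp only [val, ih, Pi.add_apply]; ring

lemma val_smul (m : Fin k → ℕ) (t : ℝ) (b : Fin k → ℝ) (w : List (Fin k)) :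
    val m (t • b) w = t * val m b w := by
  induction w with
  | nil => simp [val]
  | cons i w ih => simp only [val, ih, Pi.smul_apply, smul_eq_mul]; ring

lemma val_nonneg (m : Fin k → ℕ) (b : Fin k → ℝ) (hb : ∀ i, 0 ≤ b i) (w : List (Fin k)) :
    0 ≤ val m b w := by
  induction w with
  | nil => simp [val]
  | cons i w ih =>
    simp only [val]
    have := hb i
    positivity

lemma val_le (m : Fin k → ℕ) (hm : ∀ i, 2 ≤ m i) (b : Fin k → ℝ) (B : ℝ) (hB : 0 ≤ B)
    (hb : ∀ i, b i ≤ B) (w : List (Fin k)) : val m b w ≤ B := by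
  induction w with
  | nil => simpa [val] using hB
  | cons i w ih =>
    simp only [val]
    have h2 : (2 : ℝ) ≤ m i := by exact_mod_cast hm i
    rw [div_le_iff₀ (by linarith)]
    have := hb i
    nlinarith

/-- the coefficient of `b_i` in `val b w` -/
noncomputable def kap (m : Fin k → ℕ) (i : Fin k) (w : List (Fin k)) : ℝ :=
  val m (Pi.single i 1) w

lemma kap_nonneg (m : Fin k → ℕ) (i : Fin k) (w : List (Fin k)) : 0 ≤ kap m i w := by
  apply val_nonneg
  intro j
  by_cases h : j = i
  · subst h; simp
  · simp [Pi.single_eq_of_ne h]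

lemma kap_le (m : Fin k → ℕ) (hm : ∀ i, 2 ≤ m i) (i : Fin k) (w : List (Fin k)) :
    kap m i w ≤ 1 / ((m i : ℝ) - 1) := by
  induction w with
  | nil =>
    have h2 : (2 : ℝ) ≤ m i := by exact_mod_cast hm i
    have : (0 : ℝ) ≤ 1 / ((m i : ℝ) - 1) := by apply div_nonneg <;> linarith
    simpa [kap, val] using this
  | cons l w ih =>
    have h2 : (2 : ℝ) ≤ m i := by exact_mod_cast hm i
    have h3 : (2 : ℝ) ≤ m l := by exact_mod_cast hm l
    have h0 := kap_nonneg m i w
    have hp : (0 : ℝ) < (m i : ℝ) - 1 := by linarith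
    simp only [kap] at *
    simp only [val]
    by_cases h : l = i
    · subst h
      simp only [Pi.single_eq_same]
      rw [div_le_iff₀ (by linarith)]
      rw [le_div_iff₀ hp] at ih
      rw [div_mul_eq_mul_div, le_div_iff₀ hp]
      nlinarith
    · rw [Pi.single_eq_of_ne h, add_zero]
      refine le_trans (div_le_self h0 (by linarith)) ih

/-- transversality -/
lemma trans_lower (m : Fin k → ℕ) (hm : ∀ i, 2 ≤ m i) (M : ℝ) (hM : ∀ i, (m i : ℝ) ≤ M)
    (i j : Fin k) (hij : i ≠ j) (h3 : 3 ≤ m i ∨ 3 ≤ m j) (w w' : List (Fin k)) :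
    1 / (4 * M) ≤ kap m i (i :: w) - kap m i (j :: w') := by
  have h2 : (2 : ℝ) ≤ m i := by exact_mod_cast hm i
  have h2' : (2 : ℝ) ≤ m j := by exact_mod_cast hm j
  have e1 : 1 / (m i : ℝ) ≤ kap m i (i :: w) := by
    simp only [kap, val, Pi.single_eq_same]
    have h0 := kap_nonneg m i w
    simp only [kap] at h0
    apply div_le_div_of_nonneg_right _ (by linarith)
    linarith
  have e2 : kap m i (j :: w') ≤ (1 / ((m i : ℝ) - 1)) / m j := by
    simp only [kap, val]
    rw [Pi.single_eq_of_ne (Ne.symm hij), add_zero]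
    apply div_le_div_of_nonneg_right _ (by linarith)
    exact kap_le m hm i w'
  have e3 : 1 / (4 * M) ≤ 1 / (4 * (m i : ℝ)) := by
    apply one_div_le_one_div_of_le (by linarith)
    have := hM i
    linarith
  have e4 : 1 / (4 * (m i : ℝ)) ≤ 1 / (m i : ℝ) - (1 / ((m i : ℝ) - 1)) / m j := by
    have hp : (0 : ℝ) < (m i : ℝ) - 1 := by linarith
    have hpi : (0 : ℝ) < m i := by linarith
    have hpj : (0 : ℝ) < m j := by linarith
    have key : 4 * (m i : ℝ) ≤ 3 * (((m i : ℝ) - 1) * m j) := by
      rcases h3 with h | h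
      · have h' : (3 : ℝ) ≤ m i := by exact_mod_cast h
        nlinarith
      · have h' : (3 : ℝ) ≤ m j := by exact_mod_cast h
        nlinarith
    rw [div_div, le_sub_iff_add_le, div_add_div _ _ (by positivity) (by positivity),
      div_le_div_iff₀ (by positivity) hpi]
    nlinarith [mul_pos hp hpj, mul_pos hpi hpi]
  linarith

/-- sections: minimal words with product of multipliers at least `t` (`f` is fuel) -/
noncomputable def W (m : Fin k → ℕ) : ℕ → ℝ → Finset (List (Fin k))
  | 0, _ => {[]}
  | f + 1, t => if t ≤ 1 then {[]} else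
      univ.biUnion fun i => (W m f (t / m i)).image (List.cons i)

lemma W_ge (m : Fin k → ℕ) (hm : ∀ i, 2 ≤ m i) : ∀ (f : ℕ) (t : ℝ), t ≤ 2 ^ f →
    ∀ w ∈ W m f t, t ≤ A m w := by
  intro f
  induction f with
  | zero =>
    intro t ht w hw
    simp only [W, mem_singleton] at hw
    subst hw
    simpa using ht
  | succ f ih =>
    intro t ht w hw
    simp only [W] at hw
    split_ifs at hw with h
    · simp only [mem_singleton] at hw
      subst hw
      simpa using h
    · simp only [mem_biUnion, mem_univ, true_and, mem_image] at hw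
      obtain ⟨i, w', hw', rfl⟩ := hw
      have h2 : (2 : ℝ) ≤ m i := by exact_mod_cast hm i
      have h1 : t / m i ≤ 2 ^ f := by
        rw [div_le_iff₀ (by linarith)]
        rw [pow_succ] at ht
        have : (0 : ℝ) < 2 ^ f := by positivity
        nlinarith
      have := ih _ h1 w' hw'
      rw [div_le_iff₀ (by linarith)] at this
      rw [A_cons]
      push_cast
      linarith

lemma W_le (m : Fin k → ℕ) (hm : ∀ i, 2 ≤ m i) (M : ℝ) (hM : ∀ i, (m i : ℝ) ≤ M) :
    ∀ (f : ℕ) (t : ℝ), ∀ w ∈ W m f t, (A m w : ℝ) ≤ max 1 (M * t) := by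
  intro f
  induction f with
  | zero =>
    intro t w hw
    simp only [W, mem_singleton] at hw
    subst hw
    simp
  | succ f ih =>
    intro t w hw
    simp only [W] at hw
    split_ifs at hw with h
    · simp only [mem_singleton] at hw
      subst hw
      simp
    · simp only [mem_biUnion, mem_univ, true_and, mem_image] at hw
      obtain ⟨i, w', hw', rfl⟩ := hw
      have h2 : (2 : ℝ) ≤ m i := by exact_mod_cast hm i
      have hMi := hM i
      push Not at h
      have h3 := ih _ w' hw'
      rw [A_cons]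
      push_cast
      apply le_max_of_le_right
      have h4 : (m i : ℝ) * max 1 (M * (t / m i)) ≤ M * t := by
        rcases le_total 1 (M * (t / m i)) with h5 | h5
        · rw [max_eq_right h5]
          have : (m i : ℝ) * (M * (t / m i)) = M * t := by field_simp
          linarith
        · rw [max_eq_left h5]
          nlinarith
      have : (m i : ℝ) * A m w' ≤ (m i : ℝ) * max 1 (M * (t / m i)) :=
        mul_le_mul_of_nonneg_left h3 (by linarith)
      linarith

lemma W_kraft (m : Fin k → ℕ) (hm : ∀ i, 2 ≤ m i) (s : ℝ)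
    (hsum : ∑ i, (m i : ℝ) ^ (-s) ≤ 1) :
    ∀ (f : ℕ) (t : ℝ), ∑ w ∈ W m f t, (A m w : ℝ) ^ (-s) ≤ 1 := by
  intro f
  induction f with
  | zero => intro t; simp [W]
  | succ f ih =>
    intro t
    simp only [W]
    split_ifs with h
    · simp
    · rw [sum_biUnion]
      · refine le_trans (sum_le_sum (g := fun i => (m i : ℝ) ^ (-s)) ?_) hsum
        intro i _
        rw [sum_image (by intro a _ b _ hab; simpa using hab)]
        have : ∀ w ∈ W m f (t / m i), (A m (i :: w) : ℝ) ^ (-s)
            = (m i : ℝ) ^ (-s) * (A m w : ℝ) ^ (-s) := by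
          intro w _
          rw [A_cons]
          push_cast
          rw [Real.mul_rpow (by positivity) (by positivity)]
        rw [sum_congr rfl this, ← mul_sum]
        have h0 : (0 : ℝ) ≤ (m i : ℝ) ^ (-s) := by positivity
        have := ih (t / m i)
        nlinarith
      · intro i _ j _ hij
        simp only [Function.onFun]
        rw [disjoint_left]
        intro w hw hw'
        simp only [mem_image] at hw hw'
        obtain ⟨a, _, rfl⟩ := hw
        obtain ⟨c, _, hc⟩ := hw'
        simp only [List.cons.injEq] at hc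
        exact hij hc.1.symm

lemma W_card (m : Fin k → ℕ) (hm : ∀ i, 2 ≤ m i) (s : ℝ) (hs : 0 ≤ s)
    (hsum : ∑ i, (m i : ℝ) ^ (-s) ≤ 1) (M : ℝ) (hM : ∀ i, (m i : ℝ) ≤ M) (f : ℕ) (t : ℝ) :
    ((W m f t).card : ℝ) ≤ (max 1 (M * t)) ^ s := by
  have h1 := W_kraft m hm s hsum f t
  have hX : (0 : ℝ) < max 1 (M * t) := lt_of_lt_of_le one_pos (le_max_left _ _)
  have h2 : ((W m f t).card : ℝ) * (max 1 (M * t)) ^ (-s) ≤ ∑ w ∈ W m f t, (A m w : ℝ) ^ (-s) := by
    rw [← nsmul_eq_mul]
    apply card_nsmul_le_sum
    intro w hw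
    have hA : (0 : ℝ) < A m w := by exact_mod_cast A_pos m hm w
    exact Real.rpow_le_rpow_of_nonpos hA (W_le m hm M hM f t w hw) (by linarith)
  have h3 : ((W m f t).card : ℝ) * (max 1 (M * t)) ^ (-s) ≤ 1 := le_trans h2 h1
  rw [Real.rpow_neg hX.le, ← div_eq_mul_inv, div_le_iff₀ (by positivity)] at h3
  linarith

lemma W_prefix (m : Fin k → ℕ) (hm : ∀ i, 2 ≤ m i) : ∀ (f : ℕ) (t : ℝ) (x : List (Fin k)),
    t ≤ A m x → ∃ w ∈ W m f t, ∃ r, x = w ++ r := by
  intro f
  induction f with
  | zero => intro t x _; exact ⟨[], by simp [W], x, rfl⟩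
  | succ f ih =>
    intro t x hx
    simp only [W]
    split_ifs with h
    · exact ⟨[], by simp, x, rfl⟩
    · cases x with
      | nil => exact absurd (by simpa using hx) h
      | cons i x =>
        have h2 : (2 : ℝ) ≤ m i := by exact_mod_cast hm i
        have h3 : t / m i ≤ A m x := by
          rw [div_le_iff₀ (by linarith)]
          rw [A_cons] at hx
          push_cast at hx
          linarith
        obtain ⟨w, hw, r, rfl⟩ := ih _ _ h3
        refine ⟨i :: w, ?_, r, rfl⟩
        simp only [mem_biUnion, mem_univ, true_and, mem_image]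
        exact ⟨i, w, hw, rfl⟩

/-! ### relations -/

/-- matrix of a reversed word -/
lemma mat_rev (m b : Fin k → ℕ) (hm : ∀ i, 2 ≤ m i) (x : List (Fin k)) :
    ∃ N : ℕ, (x.reverse.map (fun i => (!![m i, b i; 0, 1] : Matrix (Fin 2) (Fin 2) ℕ))).prod
      = !![A m x, N; 0, 1] ∧ (N : ℝ) = A m x * val m (fun i => (b i : ℝ)) x := by
  induction x with
  | nil =>
    refine ⟨0, ?_, by simp [val]⟩
    simp [Matrix.one_fin_two]
  | cons i x ih =>
    obtain ⟨N, hN, hv⟩ := ih
    refine ⟨A m x * b i + N, ?_, ?_⟩
    · rw [List.reverse_cons, List.map_append, List.prod_append, hN]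
      simp [Matrix.mul_fin_two, mul_comm]
    · have h1 : (m i : ℝ) ≠ 0 := by have := hm i; positivity
      rw [A_cons]
      push_cast
      rw [hv]
      simp only [val]
      field_simp
      ring

/-- stripping the common part -/
lemma strip (m : Fin k → ℕ) (hm : ∀ i, 2 ≤ m i) (b : Fin k → ℝ) :
    ∀ x y : List (Fin k), x ≠ y → A m x = A m y → val m b x = val m b y →
      ∃ i j x' y', i ≠ j ∧ A m (i :: x') = A m (j :: y') ∧ val m b (i :: x') = val m b (j :: y') := by
  intro x
  induction x with
  | nil =>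
    intro y hxy hA _
    cases y with
    | nil => exact absurd rfl hxy
    | cons j y =>
      exfalso
      rw [A_cons, A_nil] at hA
      have h1 := hm j
      have h2 := A_pos m hm y
      nlinarith
  | cons i x ih =>
    intro y hxy hA hv
    cases y with
    | nil =>
      exfalso
      rw [A_cons, A_nil] at hA
      have h1 := hm i
      have h2 := A_pos m hm x
      nlinarith
    | cons j y =>
      by_cases hij : i = j
      · subst hij
        have h1 : (m i : ℝ) ≠ 0 := by have := hm i; positivity
        apply ih y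
        · intro h; exact hxy (by rw [h])
        · rw [A_cons, A_cons] at hA
          exact Nat.eq_of_mul_eq_mul_left (by have := hm i; omega) hA
        · simp only [val] at hv
          field_simp at hv
          linarith
      · exact ⟨i, j, x, y, hij, hA, hv⟩

/-- a non-free tuple gives two long words with the same value and different first letters -/
lemma exists_pair (m b : Fin k → ℕ) (hm : ∀ i, 2 ≤ m i) (u v : List (Fin k)) (huv : u ≠ v)
    (h : (u.map (fun i => (!![m i, b i; 0, 1] : Matrix (Fin 2) (Fin 2) ℕ))).prod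
      = (v.map (fun i => (!![m i, b i; 0, 1] : Matrix (Fin 2) (Fin 2) ℕ))).prod) (t : ℝ) :
    ∃ i j x y, i ≠ j ∧ t ≤ A m (i :: x) ∧ A m (i :: x) = A m (j :: y) ∧
      val m (fun i => (b i : ℝ)) (i :: x) = val m (fun i => (b i : ℝ)) (j :: y) := by
  obtain ⟨N, hN, hv⟩ := mat_rev m b hm u.reverse
  obtain ⟨N', hN', hv'⟩ := mat_rev m b hm v.reverse
  rw [List.reverse_reverse] at hN hN'
  rw [hN, hN'] at h
  have e1 : A m u.reverse = A m v.reverse := by
    have := congrFun (congrFun h 0) 0
    simpa using this
  have e2 : N = N' := by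
    have := congrFun (congrFun h 0) 1
    simpa using this
  have hApos : (0 : ℝ) < A m u.reverse := by exact_mod_cast A_pos m hm _
  have e3 : val m (fun i => (b i : ℝ)) u.reverse = val m (fun i => (b i : ℝ)) v.reverse := by
    rw [e2, hv', ← e1] at hv
    exact (mul_left_cancel₀ hApos.ne' hv).symm
  obtain ⟨i, j, x, y, hij, hA, hval⟩ := strip m hm _ u.reverse v.reverse
    (fun h => huv (List.reverse_injective h)) e1 e3
  obtain ⟨n, hn⟩ := pow_unbounded_of_one_lt t (one_lt_two : (1 : ℝ) < 2)
  have hz : ∀ n : ℕ, (2 : ℝ) ^ n ≤ A m (List.replicate n i) := by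
    intro n
    induction n with
    | zero => simp
    | succ n ih =>
      rw [List.replicate_succ, A_cons]
      push_cast
      have h2 : (2 : ℝ) ≤ m i := by exact_mod_cast hm i
      rw [pow_succ]
      nlinarith
  refine ⟨i, j, x ++ List.replicate n i, y ++ List.replicate n i, hij, ?_, ?_, ?_⟩
  · rw [← List.cons_append, A_append]
    push_cast
    have h1 : (1 : ℝ) ≤ A m (i :: x) := by exact_mod_cast A_pos m hm _
    have := hz n
    have h3 : (0:ℝ) < 2 ^ n := by positivity
    nlinarith
  · rw [← List.cons_append, ← List.cons_append, A_append, A_append, hA]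
  · rw [← List.cons_append, ← List.cons_append, val_append m hm, val_append m hm, hA, hval]

end Run7.h735
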