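import Mathlib
import Pool.Agent.Run7.h735.Words

set_option autoImplicit false

namespace Run7.h735

open Finset

/-- the pair of section words attached to a non-free tuple -/
lemma exists_section_pair {k : ℕ} (m b : Fin k → ℕ) (hm : ∀ i, 2 ≤ m i) (B : ℝ) (hB : 0 < B)
    (hb : ∀ i, (b i : ℝ) ≤ B) (f : ℕ) (t : ℝ) (ht : 1 < t) (htf : t ≤ 2 ^ f)
    (u v : List (Fin k)) (huv : u ≠ v)
    (h : (u.map (fun i => (!![m i, b i; 0, 1] : Matrix (Fin 2) (Fin 2) ℕ))).prod
      = (v.map (fun i => (!![m i, b i; 0, 1] : Matrix (Fin 2) (Fin 2) ℕ))).prod) :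
    ∃ i j w w', i ≠ j ∧ i :: w ∈ W m f t ∧ j :: w' ∈ W m f t ∧
      |val m (fun i => (b i : ℝ)) (i :: w) - val m (fun i => (b i : ℝ)) (j :: w')| ≤ B / t := by
  obtain ⟨i, j, x, y, hij, h1, h2, h3⟩ := exists_pair m b hm u v huv h t
  have aux : ∀ (i : Fin k) (x : List (Fin k)), t ≤ A m (i :: x) →
      ∃ w, i :: w ∈ W m f t ∧ val m (fun i => (b i : ℝ)) (i :: w) ≤ val m (fun i => (b i : ℝ)) (i :: x)
        ∧ val m (fun i => (b i : ℝ)) (i :: x) ≤ val m (fun i => (b i : ℝ)) (i :: w) + B / t := by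
    intro i x hx
    obtain ⟨w, hw, r, hr⟩ := W_prefix m hm f t (i :: x) hx
    have hge := W_ge m hm f t htf w hw
    cases w with
    | nil =>
      exfalso
      simp at hge
      linarith
    | cons i' w =>
      simp only [List.cons_append, List.cons.injEq] at hr
      obtain ⟨rfl, rfl⟩ := hr
      refine ⟨w, hw, ?_, ?_⟩
      · rw [← List.cons_append, val_append m hm]
        have : 0 ≤ val m (fun i => (b i : ℝ)) r := val_nonneg m _ (fun i => by positivity) r
        have : 0 ≤ val m (fun i => (b i : ℝ)) r / A m (i :: w) := by positivity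
        linarith
      · rw [← List.cons_append, val_append m hm]
        have h5 : val m (fun i => (b i : ℝ)) r ≤ B := val_le m hm _ B hB.le hb r
        have h6 : val m (fun i => (b i : ℝ)) r / A m (i :: w) ≤ B / t :=
          div_le_div₀ hB.le h5 (by linarith) hge
        linarith
  obtain ⟨w, hw, hw1, hw2⟩ := aux i x h1
  obtain ⟨w', hw', hw1', hw2'⟩ := aux j y (by rw [← h2]; exact h1)
  refine ⟨i, j, w, w', hij, hw, hw', ?_⟩
  rw [abs_le]
  constructor <;> linarith

/-- at most one multiplier equals 2 in the subcritical case -/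
lemma three_le {k : ℕ} (m : Fin k → ℕ) (hm : ∀ i, 2 ≤ m i) (s : ℝ) (hs2 : s < 1 / 2)
    (hsum : ∑ i, (m i : ℝ) ^ (-s) ≤ 1) (i j : Fin k) (hij : i ≠ j) : 3 ≤ m i ∨ 3 ≤ m j := by
  by_contra hcon
  push Not at hcon
  have h1 : m i = 2 := by have := hm i; omega
  have h2 : m j = 2 := by have := hm j; omega
  have h3 : ∑ l ∈ ({i, j} : Finset (Fin k)), (m l : ℝ) ^ (-s) ≤ ∑ i, (m i : ℝ) ^ (-s) :=
    sum_le_sum_of_subset_of_nonneg (subset_univ _) (fun l _ _ => by positivity)
  rw [sum_pair hij, h1, h2] at h3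
  have h4 : (1 / 2 : ℝ) < (2 : ℝ) ^ (-s) := by
    have h5 : (2 : ℝ) ^ (-1 : ℝ) < (2 : ℝ) ^ (-s) :=
      Real.rpow_lt_rpow_of_exponent_lt (by norm_num) (by linarith)
    rw [Real.rpow_neg_one] at h5
    linarith
  push_cast at h3
  linarith

theorem card_bound {k' : ℕ} (m : Fin (k' + 1) → ℕ) (hm : ∀ i, 2 ≤ m i) (s : ℝ) (hs : 0 ≤ s)
    (hs2 : s < 1 / 2) (hsum : ∑ i, (m i : ℝ) ^ (-s) ≤ 1) (M : ℕ) (hM : ∀ i, m i ≤ M)
    (B : ℕ) (hB : 1 ≤ B) :
    ({b : Fin (k' + 1) → ℕ | (∀ i, b i ≤ B) ∧ ∃ u v : List (Fin (k' + 1)), u ≠ v ∧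
      (u.map (fun i => (!![m i, b i; 0, 1] : Matrix (Fin 2) (Fin 2) ℕ))).prod
      = (v.map (fun i => (!![m i, b i; 0, 1] : Matrix (Fin 2) (Fin 2) ℕ))).prod}.ncard : ℝ)
      ≤ ((2 * M : ℝ) ^ (2 * s) * 2 ^ k' * (4 * M + 1)) * (B : ℝ) ^ ((k' : ℝ) + 2 * s) := by
  classical
  have hBr : (1 : ℝ) ≤ B := by exact_mod_cast hB
  have hM2 : 2 ≤ M := le_trans (hm 0) (hM 0)
  have hMr : ∀ i, (m i : ℝ) ≤ M := fun i => by exact_mod_cast hM i
  have hM0 : (2 : ℝ) ≤ M := by exact_mod_cast hM2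
  obtain ⟨f, hf⟩ := pow_unbounded_of_one_lt (2 * B : ℝ) (one_lt_two : (1 : ℝ) < 2)
  set NF := {b : Fin (k' + 1) → ℕ | (∀ i, b i ≤ B) ∧ ∃ u v : List (Fin (k' + 1)), u ≠ v ∧
      (u.map (fun i => (!![m i, b i; 0, 1] : Matrix (Fin 2) (Fin 2) ℕ))).prod
      = (v.map (fun i => (!![m i, b i; 0, 1] : Matrix (Fin 2) (Fin 2) ℕ))).prod} with hNF
  have key : ∀ b ∈ NF, ∃ p : Fin (k' + 1) × List (Fin (k' + 1)) × List (Fin (k' + 1)),
      p.2.1 ∈ W m f (2 * B) ∧ p.2.2 ∈ W m f (2 * B) ∧ (∃ w, p.2.1 = p.1 :: w) ∧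
      (∃ j w', p.1 ≠ j ∧ p.2.2 = j :: w') ∧
      |val m (fun i => (b i : ℝ)) p.2.1 - val m (fun i => (b i : ℝ)) p.2.2| ≤ 1 / 2 := by
    rintro b ⟨hb, u, v, huv, h⟩
    obtain ⟨i, j, w, w', hij, hw, hw', hle⟩ := exists_section_pair m b hm B (by linarith)
      (fun i => by exact_mod_cast hb i) f (2 * B) (by linarith) hf.le u v huv h
    refine ⟨(i, i :: w, j :: w'), hw, hw', ⟨w, rfl⟩, ⟨j, w', hij, rfl⟩, ?_⟩
    refine le_trans hle ?_
    rw [div_le_div_iff₀ (by linarith) (by norm_num)]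
    linarith
  choose! F hF using key
  set T : Finset (List (Fin (k' + 1)) × List (Fin (k' + 1)) × (Fin k' → ℕ) × ℕ) :=
    W m f (2 * B) ×ˢ W m f (2 * B) ×ˢ (Fintype.piFinset fun _ : Fin k' => range (B + 1)) ×ˢ
      range (4 * M + 1) with hT
  have hcard : NF.ncard ≤ T.card := by
    rw [← Set.ncard_coe_finset T]
    apply Set.ncard_le_ncard_of_injOn
      (fun b => ((F b).2.1, (F b).2.2, (fun l => b ((F b).1.succAbove l)), b (F b).1 % (4 * M + 1)))
    · intro b hb
      obtain ⟨h1, h2, -, -, -⟩ := hF b hb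
      simp only [hT, coe_product, Set.mem_prod, mem_coe]
      refine ⟨h1, h2, ?_, ?_⟩
      · rw [Fintype.mem_piFinset]
        intro l
        have := hb.1 ((F b).1.succAbove l)
        simp only [mem_range]
        omega
      · simp only [mem_range]
        exact Nat.mod_lt _ (by omega)
    · intro b hb c hc hbc
      simp only [Prod.mk.injEq] at hbc
      obtain ⟨e1, e2, e3, e4⟩ := hbc
      obtain ⟨-, -, ⟨w, hw⟩, ⟨j, w', hj, hw'⟩, hle⟩ := hF b hb
      obtain ⟨-, -, ⟨w2, hw2⟩, -, hle2⟩ := hF c hc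
      have e5 : (F b).1 = (F c).1 := by
        rw [hw, hw2] at e1
        simp only [List.cons.injEq] at e1
        exact e1.1
      rw [← e1, ← e2] at hle2
      rw [← e5] at e3 e4
      set i := (F b).1 with hi
      -- agreement off i
      have hoff : ∀ l, l ≠ i → b l = c l := by
        intro l hl
        obtain ⟨l', rfl⟩ := Fin.exists_succAbove_eq hl
        exact congrFun e3 l'
      rw [hw, hw'] at hle hle2
      have hk : 1 / (4 * (M : ℝ)) ≤ kap m i (i :: w) - kap m i (j :: w') :=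
        trans_lower m hm M hMr i j hj (three_le m hm s hs2 hsum i j hj) w w'
      -- the general step
      have step : ∀ b c : Fin (k' + 1) → ℕ, (∀ l, l ≠ i → b l = c l) → b i ≤ c i →
          b i % (4 * M + 1) = c i % (4 * M + 1) →
          |val m (fun i => (b i : ℝ)) (i :: w) - val m (fun i => (b i : ℝ)) (j :: w')| ≤ 1 / 2 →
          |val m (fun i => (c i : ℝ)) (i :: w) - val m (fun i => (c i : ℝ)) (j :: w')| ≤ 1 / 2 →
          b = c := by
        intro b c hoff hle0 hmod h1 h2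
        obtain ⟨d, hd⟩ := Nat.exists_eq_add_of_le hle0
        have hc : (fun l => (c l : ℝ)) = (fun l => (b l : ℝ)) + (d : ℝ) • (Pi.single i (1 : ℝ)) := by
          funext l
          by_cases hl : l = i
          · subst hl
            simp [hd]
          · simp [Pi.single_eq_of_ne hl, hoff l hl]
        rw [hc, val_add, val_add, val_smul, val_smul] at h2
        change |_ + (d : ℝ) * kap m i (i :: w) - (_ + (d : ℝ) * kap m i (j :: w'))| ≤ 1 / 2 at h2
        rw [abs_le] at h1 h2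
        have h3 : (d : ℝ) * (kap m i (i :: w) - kap m i (j :: w')) ≤ 1 := by nlinarith
        have h4 : (d : ℝ) * (1 / (4 * (M : ℝ))) ≤ 1 :=
          le_trans (mul_le_mul_of_nonneg_left hk (by positivity)) h3
        have h5 : (d : ℝ) ≤ 4 * M := by
          rw [mul_one_div, div_le_one (by linarith)] at h4
          exact h4
        have h6 : d ≤ 4 * M := by exact_mod_cast h5
        have h7 : d = 0 := by
          rw [hd] at hmod
          have h8 : (b i + 0) ≡ (b i + d) [MOD (4 * M + 1)] := by rw [add_zero]; exact hmod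
          have h9 : 0 ≡ d [MOD (4 * M + 1)] := Nat.ModEq.add_left_cancel' _ h8
          have h10 := (Nat.modEq_zero_iff_dvd.mp h9.symm)
          exact Nat.eq_zero_of_dvd_of_lt h10 (by omega)
        funext l
        by_cases hl : l = i
        · subst hl; omega
        · exact hoff l hl
      rcases le_total (b i) (c i) with h | h
      · exact step b c hoff h e4 hle hle2
      · exact (step c b (fun l hl => (hoff l hl).symm) h e4.symm hle2 hle).symm
  have hcr : (NF.ncard : ℝ) ≤ T.card := by exact_mod_cast hcard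
  refine le_trans hcr ?_
  have hTc : (T.card : ℝ) = (W m f (2 * B)).card * ((W m f (2 * B)).card *
      ((B + 1 : ℝ) ^ k' * (4 * M + 1))) := by
    rw [hT]
    simp only [card_product, Fintype.card_piFinset, card_range, prod_const, card_univ,
      Fintype.card_fin]
    push_cast
    ring
  rw [hTc]
  have hW := W_card m hm s hs hsum M hMr f (2 * B)
  have hmax : max 1 ((M : ℝ) * (2 * B)) = (2 * M) * B := by
    rw [max_eq_right (by nlinarith)]
    ring
  rw [hmax] at hW
  rw [Real.mul_rpow (by positivity) (by positivity)] at hW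
  have hWc : (0 : ℝ) ≤ (W m f (2 * B)).card := by positivity
  have hpow : ((B : ℝ) + 1) ^ k' ≤ (2 * B) ^ k' := by
    apply pow_le_pow_left₀ (by linarith)
    linarith
  calc ((W m f (2 * B)).card : ℝ) * ((W m f (2 * B)).card * ((B + 1 : ℝ) ^ k' * (4 * M + 1)))
      ≤ ((2 * M : ℝ) ^ s * (B : ℝ) ^ s) * (((2 * M : ℝ) ^ s * (B : ℝ) ^ s) *
        ((2 * B : ℝ) ^ k' * (4 * M + 1))) := by
        gcongr
    _ = ((2 * M : ℝ) ^ (2 * s) * 2 ^ k' * (4 * M + 1)) * (B : ℝ) ^ ((k' : ℝ) + 2 * s) := by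
        rw [Real.rpow_add (by linarith), Real.rpow_natCast, two_mul s, Real.rpow_add (by linarith),
          Real.rpow_add (by linarith), mul_pow]
        ring

end Run7.h735
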