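import Mathlib

set_option autoImplicit false

namespace Run7.h735

/-- The maps `x ↦ m_i x + b_i` (`i : Fin k`) generate a free semigroup on this list: distinct
nonempty words in the matrices `[[m_i, b_i], [0, 1]]` have distinct products. -/
def IsFree {k : ℕ} (m b : Fin k → ℕ) : Prop :=
  ∀ u v : List (Fin k), u ≠ [] → v ≠ [] →
    (u.map fun i => (!![m i, b i; 0, 1] : Matrix (Fin 2) (Fin 2) ℕ)).prod =
      (v.map fun i => (!![m i, b i; 0, 1] : Matrix (Fin 2) (Fin 2) ℕ)).prod → u = v

end Run7.h735
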