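import Mathlib
import Pool.Agent.Run7.h735.Words
import Pool.Agent.Run7.h735.Count

set_option autoImplicit false

namespace Run7.h735

open Finset

/-- `val` is a linear form in `b` with coefficients `kap` -/
lemma val_eq_sum {k : ℕ} (m : Fin k → ℕ) (b : Fin k → ℝ) (w : List (Fin k)) :
    val m b w = ∑ l, b l * kap m l w := by
  induction w with
  | nil => simp [val, kap]
  | cons i w ih =>
    simp only [kap, val] at ih ⊢
    rw [ih]
    have : ∀ l, b l * ((val m (Pi.single l 1) w + (Pi.single l (1:ℝ) : Fin k → ℝ) i) / m i)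
        = (b l * val m (Pi.single l 1) w) / m i + (b l * (Pi.single l (1:ℝ) : Fin k → ℝ) i) / m i := by
      intro l; ring
    rw [sum_congr rfl (fun l _ => this l), sum_add_distrib, ← sum_div, ← sum_div, add_div]
    congr 2
    rw [sum_eq_single i]
    · simp
    · intro l _ hl
      rw [Pi.single_eq_of_ne hl.symm, mul_zero]
    · simp

lemma val_tau {k : ℕ} (m : Fin k → ℕ) (hm : ∀ i, 2 ≤ m i) (w : List (Fin k)) :
    val m (fun i => (m i : ℝ) - 1) w = 1 - 1 / A m w := by
  induction w with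
  | nil => simp [val]
  | cons i w ih =>
    have h1 : (m i : ℝ) ≠ 0 := by have := hm i; positivity
    have h2 : (A m w : ℝ) ≠ 0 := by have := A_pos m hm w; positivity
    simp only [val, ih, A_cons]
    push_cast
    field_simp
    ring

/-- the cross product of `b` and `(m_i - 1)_i` -/
def cr (m b : Fin 3 → ℕ) : Fin 3 → ℤ :=
  ![(b 1 : ℤ) * ((m 2 : ℤ) - 1) - (b 2 : ℤ) * ((m 1 : ℤ) - 1),
    (b 2 : ℤ) * ((m 0 : ℤ) - 1) - (b 0 : ℤ) * ((m 2 : ℤ) - 1),
    (b 0 : ℤ) * ((m 1 : ℤ) - 1) - (b 1 : ℤ) * ((m 0 : ℤ) - 1)]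

lemma cr_bound (m b : Fin 3 → ℕ) (hm : ∀ i, 2 ≤ m i) (M B : ℕ) (hM : ∀ i, m i ≤ M)
    (hb : ∀ i, b i ≤ B) (l : Fin 3) : |cr m b l| ≤ (M : ℤ) * B := by
  have h : ∀ i j : Fin 3, (0 : ℤ) ≤ (b i : ℤ) * ((m j : ℤ) - 1) ∧
      (b i : ℤ) * ((m j : ℤ) - 1) ≤ (M : ℤ) * B := by
    intro i j
    have h1 : (2 : ℤ) ≤ m j := by exact_mod_cast hm j
    have h2 : (m j : ℤ) ≤ M := by exact_mod_cast hM j
    have h3 : (b i : ℤ) ≤ B := by exact_mod_cast hb i
    have h4 : (0 : ℤ) ≤ b i := by positivity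
    constructor
    · apply mul_nonneg h4; linarith
    · nlinarith
  fin_cases l
  · have := h 1 2; have := h 2 1
    simp only [cr, abs_le]
    simp
    constructor <;> omega
  · have := h 2 0; have := h 0 2
    simp only [cr, abs_le]
    simp
    constructor <;> omega
  · have := h 0 1; have := h 1 0
    simp only [cr, abs_le]
    simp
    constructor <;> omega

/-- section data with the direction information -/
lemma exists_dir (m b : Fin 3 → ℕ) (hm : ∀ i, 2 ≤ m i) (M B : ℕ) (hM : ∀ i, m i ≤ M)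
    (hb : ∀ i, b i ≤ B) (f : ℕ) (t : ℝ) (ht : 1 < t) (htf : t ≤ 2 ^ f)
    (u v : List (Fin 3)) (huv : u ≠ v)
    (h : (u.map (fun i => (!![m i, b i; 0, 1] : Matrix (Fin 2) (Fin 2) ℕ))).prod
      = (v.map (fun i => (!![m i, b i; 0, 1] : Matrix (Fin 2) (Fin 2) ℕ))).prod) :
    ∃ i j w w', i ≠ j ∧ i :: w ∈ W m f t ∧ j :: w' ∈ W m f t ∧
      ∀ l n, |(kap m l (i :: w) - kap m l (j :: w')) * (cr m b n : ℝ)
        - (kap m n (i :: w) - kap m n (j :: w')) * (cr m b l : ℝ)| ≤ 2 * ((M : ℝ) * B) / t := by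
  obtain ⟨i, j, x, y, hij, h1, h2, h3⟩ := exists_pair m b hm u v huv h t
  have aux : ∀ (i : Fin 3) (x : List (Fin 3)), t ≤ A m (i :: x) →
      ∃ w, i :: w ∈ W m f t ∧ ∀ l, kap m l (i :: w) ≤ kap m l (i :: x)
        ∧ kap m l (i :: x) ≤ kap m l (i :: w) + 1 / t := by
    intro i x hx
    obtain ⟨w, hw, r, hr⟩ := W_prefix m hm f t (i :: x) hx
    have hge := W_ge m hm f t htf w hw
    cases w with
    | nil =>
      exfalso
      simp at hge
      linarith
    | cons i' w =>
      simp only [List.cons_append, List.cons.injEq] at hr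
      obtain ⟨rfl, rfl⟩ := hr
      refine ⟨w, hw, fun l => ⟨?_, ?_⟩⟩
      · rw [← List.cons_append, kap, kap, val_append m hm]
        have h5 : 0 ≤ kap m l r := kap_nonneg m l r
        rw [kap] at h5
        have : 0 ≤ val m (Pi.single l 1) r / A m (i :: w) := by positivity
        linarith
      · rw [← List.cons_append, kap, kap, val_append m hm]
        have h5 : kap m l r ≤ 1 / ((m l : ℝ) - 1) := kap_le m hm l r
        have h6 : 1 / ((m l : ℝ) - 1) ≤ 1 := by
          have : (2 : ℝ) ≤ m l := by exact_mod_cast hm l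
          rw [div_le_one (by linarith)]
          linarith
        have h7 : val m (Pi.single l 1) r / A m (i :: w) ≤ 1 / t :=
          div_le_div₀ zero_le_one (le_trans h5 h6) (by linarith) hge
        linarith
  obtain ⟨w, hw, hw1⟩ := aux i x h1
  obtain ⟨w', hw', hw1'⟩ := aux j y (by rw [← h2]; exact h1)
  refine ⟨i, j, w, w', hij, hw, hw', ?_⟩
  -- the exact direction
  set D : Fin 3 → ℝ := fun l => kap m l (i :: x) - kap m l (j :: y) with hD
  have o1 : (b 0 : ℝ) * D 0 + (b 1 : ℝ) * D 1 + (b 2 : ℝ) * D 2 = 0 := by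
    rw [val_eq_sum, val_eq_sum, Fin.sum_univ_three, Fin.sum_univ_three] at h3
    simp only [hD]
    linarith
  have o2 : ((m 0 : ℝ) - 1) * D 0 + ((m 1 : ℝ) - 1) * D 1 + ((m 2 : ℝ) - 1) * D 2 = 0 := by
    have e1 := val_tau m hm (i :: x)
    have e2 := val_tau m hm (j :: y)
    rw [val_eq_sum, Fin.sum_univ_three] at e1 e2
    rw [h2] at e1
    simp only [hD]
    linarith
  have o3 : ∀ l n, D l * (cr m b n : ℝ) - D n * (cr m b l : ℝ) = 0 := by
    intro l n
    fin_cases l <;> fin_cases n <;> simp [cr] <;>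
      first
        | ring1
        | linear_combination (m 0 - 1 : ℝ) * o1 - (b 0 : ℝ) * o2
        | linear_combination (b 0 : ℝ) * o2 - (m 0 - 1 : ℝ) * o1
        | linear_combination (m 1 - 1 : ℝ) * o1 - (b 1 : ℝ) * o2
        | linear_combination (b 1 : ℝ) * o2 - (m 1 - 1 : ℝ) * o1
        | linear_combination (m 2 - 1 : ℝ) * o1 - (b 2 : ℝ) * o2
        | linear_combination (b 2 : ℝ) * o2 - (m 2 - 1 : ℝ) * o1
  have hd : ∀ l, |(kap m l (i :: w) - kap m l (j :: w')) - D l| ≤ 1 / t := by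
    intro l
    have a1 := hw1 l
    have a2 := hw1' l
    simp only [hD]
    rw [abs_le]
    constructor <;> linarith [a1.1, a1.2, a2.1, a2.2]
  intro l n
  have hcl : |(cr m b l : ℝ)| ≤ (M : ℝ) * B := by
    have := cr_bound m b hm M B hM hb l
    exact_mod_cast this
  have hcn : |(cr m b n : ℝ)| ≤ (M : ℝ) * B := by
    have := cr_bound m b hm M B hM hb n
    exact_mod_cast this
  have e : (kap m l (i :: w) - kap m l (j :: w')) * (cr m b n : ℝ)
        - (kap m n (i :: w) - kap m n (j :: w')) * (cr m b l : ℝ)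
      = ((kap m l (i :: w) - kap m l (j :: w')) - D l) * (cr m b n : ℝ)
        - ((kap m n (i :: w) - kap m n (j :: w')) - D n) * (cr m b l : ℝ) := by
    linear_combination o3 l n
  rw [e]
  have ht0 : (0 : ℝ) ≤ 1 / t := by positivity
  calc |((kap m l (i :: w) - kap m l (j :: w')) - D l) * (cr m b n : ℝ)
        - ((kap m n (i :: w) - kap m n (j :: w')) - D n) * (cr m b l : ℝ)|
      ≤ |((kap m l (i :: w) - kap m l (j :: w')) - D l) * (cr m b n : ℝ)|
        + |((kap m n (i :: w) - kap m n (j :: w')) - D n) * (cr m b l : ℝ)| := abs_sub _ _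
    _ ≤ 1 / t * ((M : ℝ) * B) + 1 / t * ((M : ℝ) * B) := by
        rw [abs_mul, abs_mul]
        exact add_le_add (mul_le_mul (hd l) hcn (abs_nonneg _) ht0)
          (mul_le_mul (hd n) hcl (abs_nonneg _) ht0)
    _ = 2 * ((M : ℝ) * B) / t := by ring

/-- two directions seen by the same pair of section words coincide up to sign -/
lemma same_dir (c c' : Fin 3 → ℤ) (D : Fin 3 → ℝ) (i : Fin 3) (θ Q t : ℝ) (g : ℤ) (hg : 0 < g)
    (hθ : 0 < θ) (hD : θ ≤ D i) (hQ : 0 < Q) (hgQ : (g : ℝ) ≤ Q)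
    (hc : ∀ l, |(c l : ℝ)| ≤ Q) (hc' : ∀ l, |(c' l : ℝ)| ≤ Q)
    (ht : 4 * Q ^ 2 / (θ * g ^ 2) < t)
    (h1 : ∀ l n, |D l * (c n : ℝ) - D n * (c l : ℝ)| ≤ 2 * Q / t)
    (h2 : ∀ l n, |D l * (c' n : ℝ) - D n * (c' l : ℝ)| ≤ 2 * Q / t)
    (hgc : univ.gcd c = g) (hgc' : univ.gcd c' = g) (hsign : (0 < c i) ↔ (0 < c' i)) :
    c = c' := by
  have hgr : (0 : ℝ) < g := by exact_mod_cast hg
  have ht0 : 0 < t := lt_trans (by positivity) ht
  have hkey : 4 * Q ^ 2 < t * (θ * g ^ 2) := by
    rw [div_lt_iff₀ (by positivity)] at ht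
    exact ht
  have hdvd : ∀ l, g ∣ c l := fun l => hgc ▸ gcd_dvd (mem_univ l)
  have hdvd' : ∀ l, g ∣ c' l := fun l => hgc' ▸ gcd_dvd (mem_univ l)
  -- nonvanishing of the i-th coordinate
  have nz : ∀ c : Fin 3 → ℤ, (∀ l, g ∣ c l) →
      (∀ l n, |D l * (c n : ℝ) - D n * (c l : ℝ)| ≤ 2 * Q / t) → univ.gcd c = g → c i ≠ 0 := by
    intro c hdvd h1 hgc hci
    have hall : ∀ l, c l = 0 := by
      intro l
      have h3 := h1 i l
      rw [hci] at h3
      simp only [Int.cast_zero, mul_zero, sub_zero] at h3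
      rw [abs_mul, abs_of_pos (lt_of_lt_of_le hθ hD)] at h3
      have h4 : θ * |(c l : ℝ)| ≤ 2 * Q / t :=
        le_trans (mul_le_mul_of_nonneg_right hD (abs_nonneg _)) h3
      rw [le_div_iff₀ ht0] at h4
      have h5 : |(c l : ℝ)| < g := by
        by_contra hcon
        push Not at hcon
        have h6 : θ * g * t ≤ 2 * Q := by
          refine le_trans ?_ h4
          apply mul_le_mul_of_nonneg_right _ ht0.le
          exact mul_le_mul_of_nonneg_left hcon hθ.le
        nlinarith [mul_le_mul_of_nonneg_right h6 hgr.le]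
      have h6 : |c l| < g := by exact_mod_cast h5
      exact Int.eq_zero_of_abs_lt_dvd (hdvd l) h6
    have : univ.gcd c = 0 := by
      rw [Finset.gcd_eq_zero_iff]
      intro l _
      exact hall l
    omega
  have hci := nz c hdvd h1 hgc
  have hci' := nz c' hdvd' h2 hgc'
  -- parallelism
  have hpar : ∀ l, c i * c' l = c' i * c l := by
    intro l
    have h3 : g ^ 2 ∣ c i * c' l - c' i * c l := by
      apply dvd_sub
      · rw [pow_two]; exact mul_dvd_mul (hdvd i) (hdvd' l)
      · rw [pow_two]; exact mul_dvd_mul (hdvd' i) (hdvd l)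
    have h4 : |((c i * c' l - c' i * c l : ℤ) : ℝ)| < (g : ℝ) ^ 2 := by
      have e : D i * ((c i * c' l - c' i * c l : ℤ) : ℝ)
          = (c i : ℝ) * (D i * (c' l : ℝ) - D l * (c' i : ℝ))
            - (c' i : ℝ) * (D i * (c l : ℝ) - D l * (c i : ℝ)) := by
        push_cast; ring
      have h5 : |D i * ((c i * c' l - c' i * c l : ℤ) : ℝ)| ≤ Q * (2 * Q / t) + Q * (2 * Q / t) := by
        rw [e]
        refine le_trans (abs_sub _ _) ?_
        rw [abs_mul, abs_mul]
        exact add_le_add (mul_le_mul (hc i) (h2 i l) (abs_nonneg _) hQ.le)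
          (mul_le_mul (hc' i) (h1 i l) (abs_nonneg _) hQ.le)
      rw [abs_mul, abs_of_pos (lt_of_lt_of_le hθ hD)] at h5
      have h6 : θ * |((c i * c' l - c' i * c l : ℤ) : ℝ)| ≤ 4 * Q ^ 2 / t := by
        refine le_trans (mul_le_mul_of_nonneg_right hD (abs_nonneg _)) (le_trans h5 ?_)
        apply le_of_eq; ring
      rw [le_div_iff₀ ht0] at h6
      by_contra hcon
      push Not at hcon
      have h7 : θ * (g : ℝ) ^ 2 * t ≤ 4 * Q ^ 2 := by
        refine le_trans ?_ h6
        apply mul_le_mul_of_nonneg_right _ ht0.le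
        exact mul_le_mul_of_nonneg_left hcon hθ.le
      nlinarith
    have h5 : |c i * c' l - c' i * c l| < g ^ 2 := by exact_mod_cast h4
    have := Int.eq_zero_of_abs_lt_dvd h3 h5
    linarith
  have habs : |c i| = |c' i| := by
    have e1 : univ.gcd (fun l => c i * c' l) = |c i| * g := by
      rw [Finset.gcd_mul_left, hgc', ← Int.abs_eq_normalize]
    have e2 : univ.gcd (fun l => c' i * c l) = |c' i| * g := by
      rw [Finset.gcd_mul_left, hgc, ← Int.abs_eq_normalize]
    have e3 : (fun l => c i * c' l) = (fun l => c' i * c l) := funext hpar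
    rw [e3, e2] at e1
    exact (mul_right_cancel₀ hg.ne' e1).symm
  have heq : c i = c' i := by
    rcases lt_trichotomy (c i) 0 with h | h | h
    · have h' : ¬ 0 < c' i := fun h0 => absurd (hsign.mpr h0) (not_lt.mpr h.le)
      have h'' : c' i < 0 := lt_of_le_of_ne (not_lt.mp h') hci'
      rw [abs_of_neg h, abs_of_neg h''] at habs
      linarith
    · exact absurd h hci
    · have h' := hsign.mp h
      rw [abs_of_pos h, abs_of_pos h'] at habs
      exact habs
  funext l
  have := hpar l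
  rw [heq] at this
  exact (mul_left_cancel₀ hci' this).symm

end Run7.h735
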