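import Mathlib
import Pool.Agent.Run7.h735.Three

set_option autoImplicit false

namespace Run7.h735

open Finset

/-- partial sums of `g ^ (-p)` -/
lemma sum_rpow (p : ℝ) (hp0 : 0 ≤ p) (hp1 : p ≠ 1) :
    ∃ C : ℝ, 0 < C ∧ ∀ n : ℕ, 1 ≤ n →
      ∑ g ∈ Icc 1 n, (g : ℝ) ^ (-p) ≤ C * (n : ℝ) ^ (max (1 - p) 0) := by
  rcases lt_or_gt_of_ne hp1 with h | h
  · refine ⟨1 / (1 - p), by apply one_div_pos.mpr; linarith, ?_⟩
    intro n hn
    rw [max_eq_left (by linarith)]
    induction n, hn using Nat.le_induction with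
    | base =>
      simp
      rw [le_inv_comm₀ one_pos (by linarith)]
      simpa using hp0
    | succ n hn ih =>
      rw [Finset.sum_Icc_succ_top (by omega)]
      have hn0 : (0 : ℝ) < n := by exact_mod_cast hn
      have hn1 : (0 : ℝ) < (n : ℝ) + 1 := by linarith
      have hb : (1 + (-(1 / ((n : ℝ) + 1)))) ^ (1 - p) ≤ 1 + (1 - p) * (-(1 / ((n : ℝ) + 1))) := by
        apply rpow_one_add_le_one_add_mul_self
        · have : 1 / ((n : ℝ) + 1) ≤ 1 := by
            rw [div_le_one hn1]; linarith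
          linarith
        · linarith
        · linarith
      have e1 : (n : ℝ) = ((n : ℝ) + 1) * (1 + (-(1 / ((n : ℝ) + 1)))) := by
        field_simp
        ring
      have e2 : (n : ℝ) ^ (1 - p) = ((n : ℝ) + 1) ^ (1 - p) * (1 + (-(1 / ((n : ℝ) + 1)))) ^ (1 - p) := by
        rw [← Real.mul_rpow hn1.le]
        · rw [← e1]
        · have : 1 / ((n : ℝ) + 1) ≤ 1 := by
            rw [div_le_one hn1]; linarith
          linarith
      have e3 : ((n : ℝ) + 1) ^ (1 - p) = ((n : ℝ) + 1) ^ (-p) * ((n : ℝ) + 1) := by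
        have : (1 - p) = -p + 1 := by ring
        rw [this, Real.rpow_add hn1, Real.rpow_one]
      have e4 : (n : ℝ) ^ (1 - p) ≤ ((n : ℝ) + 1) ^ (1 - p) - (1 - p) * ((n : ℝ) + 1) ^ (-p) := by
        rw [e2]
        refine le_trans (mul_le_mul_of_nonneg_left hb (by positivity)) (le_of_eq ?_)
        rw [e3]
        field_simp
        ring
      push_cast
      have h1p : 0 < 1 - p := by linarith
      refine le_trans (add_le_add_left ih _) ?_
      rw [one_div, inv_mul_eq_div, inv_mul_eq_div, div_add' _ _ _ h1p.ne', div_le_div_iff_of_pos_right h1p]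
      linarith
  · have hsum : Summable (fun g : ℕ => (g : ℝ) ^ (-p)) := Real.summable_nat_rpow.mpr (by linarith)
    refine ⟨(∑' g : ℕ, (g : ℝ) ^ (-p)) + 1, ?_, ?_⟩
    · have : 0 ≤ ∑' g : ℕ, (g : ℝ) ^ (-p) := tsum_nonneg (fun g => by positivity)
      linarith
    · intro n hn
      rw [max_eq_right (by linarith), Real.rpow_zero, mul_one]
      have := hsum.sum_le_tsum (Icc 1 n) (fun g _ => by positivity)
      linarith

lemma sum_range_Icc (F : ℕ → ℝ) (n : ℕ) :
    ∑ g ∈ range n, F (g + 1) = ∑ g ∈ Icc 1 n, F g := by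
  induction n with
  | zero => simp
  | succ n ih => rw [sum_range_succ, Finset.sum_Icc_succ_top (by omega), ih]

/-- the bound for one value of the gcd -/
lemma card_fiber (m : Fin 3 → ℕ) (hm : ∀ i, 2 ≤ m i) (s : ℝ) (hs : 0 ≤ s)
    (hs2 : s < 1 / 2) (hsum : ∑ i, (m i : ℝ) ^ (-s) ≤ 1) (M : ℕ) (hM : ∀ i, m i ≤ M)
    (B : ℕ) (hB : 1 ≤ B) (g : ℕ) (hg : 1 ≤ g) (hgM : g ≤ M * B) (S : Finset (Fin 3 → ℕ))
    (hS : ∀ b ∈ S, (∀ i, b i ≤ B) ∧ univ.gcd (cr m b) = (g : ℤ) ∧ ∃ u v : List (Fin 3), u ≠ v ∧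
      (u.map (fun i => (!![m i, b i; 0, 1] : Matrix (Fin 2) (Fin 2) ℕ))).prod
      = (v.map (fun i => (!![m i, b i; 0, 1] : Matrix (Fin 2) (Fin 2) ℕ))).prod) :
    (S.card : ℝ) ≤ 2 * (B + 1) * ((M ^ 3 * (16 * M + 2) : ℝ) ^ (2 * s) * ((B : ℝ) ^ (4 * s) *
      (g : ℝ) ^ (-(4 * s)))) := by
  classical
  have hBr : (1 : ℝ) ≤ B := by exact_mod_cast hB
  have hM2 : 2 ≤ M := le_trans (hm 0) (hM 0)
  have hMr : ∀ i, (m i : ℝ) ≤ M := fun i => by exact_mod_cast hM i
  have hM0 : (2 : ℝ) ≤ M := by exact_mod_cast hM2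
  have hgr : (1 : ℝ) ≤ g := by exact_mod_cast hg
  have hgMr : (g : ℝ) ≤ M * B := by exact_mod_cast hgM
  set t : ℝ := 16 * M * (M * B / g) ^ 2 + 2 with ht
  have ht1 : 1 < t := by
    have : 0 ≤ 16 * (M : ℝ) * (M * B / g) ^ 2 := by positivity
    linarith
  obtain ⟨f, hf⟩ := pow_unbounded_of_one_lt t (one_lt_two : (1 : ℝ) < 2)
  have key : ∀ b ∈ S, ∃ p : Fin 3 × List (Fin 3) × List (Fin 3),
      p.2.1 ∈ W m f t ∧ p.2.2 ∈ W m f t ∧ (∃ w, p.2.1 = p.1 :: w) ∧
      (∃ j w', p.1 ≠ j ∧ p.2.2 = j :: w') ∧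
      ∀ l n, |(kap m l p.2.1 - kap m l p.2.2) * (cr m b n : ℝ)
        - (kap m n p.2.1 - kap m n p.2.2) * (cr m b l : ℝ)| ≤ 2 * ((M : ℝ) * B) / t := by
    intro b hb
    obtain ⟨hb1, -, u, v, huv, h⟩ := hS b hb
    obtain ⟨i, j, w, w', hij, hw, hw', hle⟩ := exists_dir m b hm M B hM hb1 f t ht1 hf.le u v huv h
    exact ⟨(i, i :: w, j :: w'), hw, hw', ⟨w, rfl⟩, ⟨j, w', hij, rfl⟩, hle⟩
  choose! F hF using key
  set T : Finset (List (Fin 3) × List (Fin 3) × Bool × ℕ) :=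
    W m f t ×ˢ W m f t ×ˢ univ ×ˢ range (B + 1) with hT
  have hcard : S.card ≤ T.card := by
    apply Finset.card_le_card_of_injOn
      (fun b => ((F b).2.1, (F b).2.2, decide (0 < cr m b (F b).1), b 0))
    · intro b hb
      obtain ⟨h1, h2, -, -, -⟩ := hF b hb
      simp only [hT, coe_product, Set.mem_prod, mem_coe, mem_univ, true_and, mem_range]
      refine ⟨h1, h2, ?_⟩
      have := (hS b hb).1 0
      omega
    · intro b hb c hc hbc
      simp only [Prod.mk.injEq] at hbc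
      obtain ⟨e1, e2, e3, e4⟩ := hbc
      obtain ⟨-, -, ⟨w, hw⟩, ⟨j, w', hj, hw'⟩, hle⟩ := hF b hb
      obtain ⟨-, -, ⟨w2, hw2⟩, -, hle2⟩ := hF c hc
      have e5 : (F b).1 = (F c).1 := by
        rw [hw, hw2] at e1
        simp only [List.cons.injEq] at e1
        exact e1.1
      rw [← e1, ← e2] at hle2
      rw [← e5] at e3
      set i := (F b).1 with hi
      rw [hw, hw'] at hle hle2
      have hk : 1 / (4 * (M : ℝ)) ≤ kap m i (i :: w) - kap m i (j :: w') :=
        trans_lower m hm M hMr i j hj (three_le m hm s hs2 hsum i j hj) w w'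
      obtain ⟨hb1, hb2, -⟩ := hS b hb
      obtain ⟨hc1, hc2, -⟩ := hS c hc
      have hcr : cr m b = cr m c := by
        apply same_dir (cr m b) (cr m c) (fun l => kap m l (i :: w) - kap m l (j :: w')) i
          (1 / (4 * (M : ℝ))) ((M : ℝ) * B) t (g : ℤ) (by exact_mod_cast hg) (by positivity) hk
          (by positivity) (by exact_mod_cast hgM)
        · intro l
          have := cr_bound m b hm M B hM hb1 l
          exact_mod_cast this
        · intro l
          have := cr_bound m c hm M B hM hc1 l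
          exact_mod_cast this
        · rw [ht, Int.cast_natCast]
          have : 4 * ((M : ℝ) * B) ^ 2 / (1 / (4 * (M : ℝ)) * (g : ℝ) ^ 2)
              = 16 * M * (M * B / g) ^ 2 := by
            field_simp
            ring
          linarith
        · exact hle
        · exact hle2
        · exact hb2
        · exact hc2
        · simpa using e3
      have t0 : (0 : ℤ) < (m 0 : ℤ) - 1 := by have := hm 0; omega
      have c1 : (b 2 : ℤ) * ((m 0 : ℤ) - 1) - (b 0 : ℤ) * ((m 2 : ℤ) - 1)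
          = (c 2 : ℤ) * ((m 0 : ℤ) - 1) - (c 0 : ℤ) * ((m 2 : ℤ) - 1) := congrFun hcr 1
      have c2 : (b 0 : ℤ) * ((m 1 : ℤ) - 1) - (b 1 : ℤ) * ((m 0 : ℤ) - 1)
          = (c 0 : ℤ) * ((m 1 : ℤ) - 1) - (c 1 : ℤ) * ((m 0 : ℤ) - 1) := congrFun hcr 2
      have e4' : (b 0 : ℤ) = c 0 := by exact_mod_cast e4
      rw [e4'] at c1 c2
      have f1 : (b 1 : ℤ) = c 1 := mul_right_cancel₀ t0.ne' (by linarith)
      have f2 : (b 2 : ℤ) = c 2 := mul_right_cancel₀ t0.ne' (by linarith)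
      funext l
      fin_cases l
      · exact e4
      · exact_mod_cast f1
      · exact_mod_cast f2
  have hcr : (S.card : ℝ) ≤ T.card := by exact_mod_cast hcard
  refine le_trans hcr ?_
  have hTc : (T.card : ℝ) = 2 * (B + 1) * ((W m f t).card * (W m f t).card) := by
    rw [hT]
    simp only [card_product, card_range, card_univ, Fintype.card_bool]
    push_cast
    ring
  rw [hTc]
  have hW := W_card m hm s hs hsum M hMr f t
  have hK : max 1 ((M : ℝ) * t) ≤ (M ^ 3 * (16 * M + 2)) * (B / g) ^ 2 := by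
    have h1 : 1 ≤ ((M : ℝ) * B / g) ^ 2 := by
      apply one_le_pow₀
      rw [le_div_iff₀ (by linarith)]
      linarith
    have h2 : (M : ℝ) * t ≤ (M ^ 3 * (16 * M + 2)) * (B / g) ^ 2 := by
      have : (M ^ 3 * (16 * M + 2)) * ((B : ℝ) / g) ^ 2 = M * ((16 * M + 2) * (M * B / g) ^ 2) := by
        field_simp
      rw [this, ht]
      apply mul_le_mul_of_nonneg_left _ (by linarith)
      nlinarith
    apply max_le _ h2
    refine le_trans ?_ h2
    nlinarith
  have hW2 : ((W m f t).card : ℝ) ≤ ((M ^ 3 * (16 * M + 2)) * (B / g) ^ 2) ^ s :=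
    le_trans hW (Real.rpow_le_rpow (le_trans zero_le_one (le_max_left _ _)) hK hs)
  have hsq : ((W m f t).card : ℝ) * (W m f t).card ≤ (M ^ 3 * (16 * M + 2) : ℝ) ^ (2 * s) *
      ((B : ℝ) ^ (4 * s) * (g : ℝ) ^ (-(4 * s))) := by
    refine le_trans (mul_le_mul hW2 hW2 (by positivity) (by positivity)) (le_of_eq ?_)
    rw [← Real.rpow_add (by positivity), ← two_mul s, Real.mul_rpow (by positivity) (by positivity)]
    congr 1
    rw [← Real.rpow_natCast ((B : ℝ) / g) 2, ← Real.rpow_mul (by positivity),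
      Real.div_rpow (by positivity) (by positivity), Real.rpow_neg (by positivity), div_eq_mul_inv]
    have : ((2 : ℕ) : ℝ) * (2 * s) = 4 * s := by push_cast; ring
    rw [this]
  exact mul_le_mul_of_nonneg_left hsq (by positivity)

theorem three_upper (m : Fin 3 → ℕ) (hm : ∀ i, 2 ≤ m i) (s : ℝ) (hs : 0 ≤ s)
    (hs2 : s < 1 / 2) (hs4 : s ≠ 1 / 4) (hsum : ∑ i, (m i : ℝ) ^ (-s) ≤ 1) :
    ∃ C : ℝ, 0 < C ∧ ∀ B : ℕ, 1 ≤ B →
    ({b : Fin 3 → ℕ | (∀ i, b i ≤ B) ∧ ∃ u v : List (Fin 3), u ≠ v ∧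
      (u.map (fun i => (!![m i, b i; 0, 1] : Matrix (Fin 2) (Fin 2) ℕ))).prod
      = (v.map (fun i => (!![m i, b i; 0, 1] : Matrix (Fin 2) (Fin 2) ℕ))).prod}.ncard : ℝ)
      ≤ C * (B : ℝ) ^ (max 2 (1 + 4 * s)) := by
  classical
  set M : ℕ := univ.sup m with hMdef
  have hM : ∀ i, m i ≤ M := fun i => le_sup (mem_univ i)
  have hM2 : 2 ≤ M := le_trans (hm 0) (hM 0)
  have hM0 : (2 : ℝ) ≤ M := by exact_mod_cast hM2
  obtain ⟨C₀, hC₀, hC⟩ := sum_rpow (4 * s) (by linarith) (by intro h; apply hs4; linarith)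
  set K : ℝ := (M ^ 3 * (16 * M + 2) : ℝ) ^ (2 * s) with hK
  have hK0 : 0 < K := by positivity
  set e : ℝ := max (1 - 4 * s) 0 with he
  have he0 : 0 ≤ e := le_max_right _ _
  refine ⟨2 + 4 * K * (C₀ * (M : ℝ) ^ e), by positivity, ?_⟩
  intro B hB
  have hBr : (1 : ℝ) ≤ B := by exact_mod_cast hB
  set P : (Fin 3 → ℕ) → Prop := fun b => ∃ u v : List (Fin 3), u ≠ v ∧
      (u.map (fun i => (!![m i, b i; 0, 1] : Matrix (Fin 2) (Fin 2) ℕ))).prod
      = (v.map (fun i => (!![m i, b i; 0, 1] : Matrix (Fin 2) (Fin 2) ℕ))).prod with hP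
  set S : Finset (Fin 3 → ℕ) := (Fintype.piFinset fun _ => range (B + 1)).filter P with hS
  have hset : {b : Fin 3 → ℕ | (∀ i, b i ≤ B) ∧ ∃ u v : List (Fin 3), u ≠ v ∧
      (u.map (fun i => (!![m i, b i; 0, 1] : Matrix (Fin 2) (Fin 2) ℕ))).prod
      = (v.map (fun i => (!![m i, b i; 0, 1] : Matrix (Fin 2) (Fin 2) ℕ))).prod} = (S : Set (Fin 3 → ℕ)) := by
    ext b
    simp only [hS, coe_filter, Fintype.mem_piFinset, mem_range, Set.mem_ofPred_eq, hP, Nat.lt_succ_iff]
  rw [hset, Set.ncard_coe_finset]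
  have hSb : ∀ b ∈ S, (∀ i, b i ≤ B) ∧ P b := by
    intro b hb
    simp only [hS, mem_filter, Fintype.mem_piFinset, mem_range, Nat.lt_succ_iff] at hb
    exact hb
  set G : (Fin 3 → ℕ) → ℕ := fun b => (univ.gcd (cr m b)).toNat with hG
  have hGnn : ∀ b : Fin 3 → ℕ, (0 : ℤ) ≤ univ.gcd (cr m b) := by
    intro b
    rw [← Finset.normalize_gcd, ← Int.abs_eq_normalize]
    exact abs_nonneg _
  have hGmaps : ∀ b ∈ S, G b ∈ range (M * B + 1) := by
    intro b hb
    obtain ⟨hb1, -⟩ := hSb b hb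
    simp only [hG, mem_range]
    by_cases h0 : ∀ l, cr m b l = 0
    · have : univ.gcd (cr m b) = 0 := by
        rw [Finset.gcd_eq_zero_iff]; intro l _; exact h0 l
      rw [this]; simp
    · push Not at h0
      obtain ⟨l, hl⟩ := h0
      have h1 : univ.gcd (cr m b) ∣ cr m b l := gcd_dvd (mem_univ l)
      have h2 : univ.gcd (cr m b) ≤ |cr m b l| := Int.le_of_dvd (abs_pos.mpr hl) ((dvd_abs _ _).mpr h1)
      have h3 := cr_bound m b hm M B hM hb1 l
      have h4 : univ.gcd (cr m b) ≤ (M : ℤ) * B := le_trans h2 h3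
      have h5 : ((M * B : ℕ) : ℤ) = (M : ℤ) * B := by push_cast; ring
      omega
  have hcardS := Finset.card_eq_sum_card_fiberwise (f := G) (s := S) (t := range (M * B + 1))
    (fun b hb => by exact_mod_cast hGmaps b hb)
  rw [hcardS, Finset.sum_range_succ']
  push_cast
  -- the zero fiber
  have h0 : ((S.filter (fun b => G b = 0)).card : ℝ) ≤ B + 1 := by
    have : (S.filter (fun b => G b = 0)).card ≤ (range (B + 1)).card := by
      apply Finset.card_le_card_of_injOn (fun b => b 0)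
      · intro b hb
        simp only [coe_filter, Set.mem_ofPred_eq] at hb
        have := (hSb b hb.1).1 0
        simp only [mem_coe, mem_range]
        omega
      · intro b hb c hc hbc
        simp only [coe_filter, Set.mem_ofPred_eq] at hb hc
        have z : ∀ b : Fin 3 → ℕ, G b = 0 → ∀ l, cr m b l = 0 := by
          intro b hb l
          have h1 : univ.gcd (cr m b) = 0 := by
            have := hGnn b
            simp only [hG] at hb
            omega
          rw [Finset.gcd_eq_zero_iff] at h1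
          exact h1 l (mem_univ l)
        have t0 : (0 : ℤ) < (m 0 : ℤ) - 1 := by have := hm 0; omega
        have c1 : (b 2 : ℤ) * ((m 0 : ℤ) - 1) - (b 0 : ℤ) * ((m 2 : ℤ) - 1) = 0 := z b hb.2 1
        have c2 : (b 0 : ℤ) * ((m 1 : ℤ) - 1) - (b 1 : ℤ) * ((m 0 : ℤ) - 1) = 0 := z b hb.2 2
        have d1 : (c 2 : ℤ) * ((m 0 : ℤ) - 1) - (c 0 : ℤ) * ((m 2 : ℤ) - 1) = 0 := z c hc.2 1
        have d2 : (c 0 : ℤ) * ((m 1 : ℤ) - 1) - (c 1 : ℤ) * ((m 0 : ℤ) - 1) = 0 := z c hc.2 2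
        have e4' : (b 0 : ℤ) = c 0 := by exact_mod_cast hbc
        rw [e4'] at c1 c2
        have f1 : (b 1 : ℤ) = c 1 := mul_right_cancel₀ t0.ne' (by linarith)
        have f2 : (b 2 : ℤ) = c 2 := mul_right_cancel₀ t0.ne' (by linarith)
        funext l
        fin_cases l
        · exact hbc
        · exact_mod_cast f1
        · exact_mod_cast f2
    have h : ((S.filter (fun b => G b = 0)).card : ℝ) ≤ ((range (B + 1)).card : ℝ) := by
      exact_mod_cast this
    simpa using h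
  have h1 : ∑ g ∈ range (M * B), ((S.filter (fun b => G b = g + 1)).card : ℝ)
      ≤ 2 * (B + 1) * (K * ((B : ℝ) ^ (4 * s) * (C₀ * ((M : ℝ) * B) ^ e))) := by
    have step : ∀ g ∈ range (M * B), ((S.filter (fun b => G b = g + 1)).card : ℝ)
        ≤ 2 * (B + 1) * (K * ((B : ℝ) ^ (4 * s) * ((g + 1 : ℕ) : ℝ) ^ (-(4 * s)))) := by
      intro g hg
      rw [mem_range] at hg
      apply card_fiber m hm s hs hs2 hsum M hM B hB (g + 1) (by omega) (by omega)
      intro b hb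
      rw [mem_filter] at hb
      obtain ⟨h1, h2⟩ := hSb b hb.1
      refine ⟨h1, ?_, h2⟩
      have := hGnn b
      have h3 := hb.2
      simp only [hG] at h3
      omega
    refine le_trans (sum_le_sum step) ?_
    rw [← mul_sum, ← mul_sum, ← mul_sum]
    apply mul_le_mul_of_nonneg_left _ (by positivity)
    apply mul_le_mul_of_nonneg_left _ hK0.le
    apply mul_le_mul_of_nonneg_left _ (by positivity)
    have h2 := hC (M * B) (by nlinarith)
    push_cast at h2
    refine le_trans (le_of_eq ?_) h2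
    exact_mod_cast sum_range_Icc (fun g => (g : ℝ) ^ (-(4 * s))) (M * B)
  have hBB : (B : ℝ) + 1 ≤ 2 * B := by linarith
  have hx2 : (B : ℝ) ≤ (B : ℝ) ^ (max 2 (1 + 4 * s)) := by
    calc (B : ℝ) = (B : ℝ) ^ (1 : ℝ) := (Real.rpow_one _).symm
      _ ≤ _ := Real.rpow_le_rpow_of_exponent_le hBr (le_trans (by norm_num) (le_max_left _ _))
  have hx3 : (B : ℝ) * ((B : ℝ) ^ (4 * s) * (B : ℝ) ^ e) = (B : ℝ) ^ (max 2 (1 + 4 * s)) := by
    rw [← Real.rpow_add (by linarith)]
    nth_rewrite 1 [← Real.rpow_one (B : ℝ)]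
    rw [← Real.rpow_add (by linarith)]
    congr 1
    rw [he]
    rcases le_total (1 - 4 * s) 0 with h | h
    · rw [max_eq_right h, max_eq_right (by linarith)]; ring
    · rw [max_eq_left h, max_eq_left (by linarith)]; ring
  have hx4 : 2 * ((B : ℝ) + 1) * (K * ((B : ℝ) ^ (4 * s) * (C₀ * ((M : ℝ) * B) ^ e)))
      ≤ 4 * K * (C₀ * (M : ℝ) ^ e) * (B : ℝ) ^ (max 2 (1 + 4 * s)) := by
    rw [Real.mul_rpow (by positivity) (by positivity), ← hx3]
    have : 4 * K * (C₀ * (M : ℝ) ^ e) * ((B : ℝ) * ((B : ℝ) ^ (4 * s) * (B : ℝ) ^ e))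
        = 2 * (2 * B) * (K * ((B : ℝ) ^ (4 * s) * (C₀ * ((M : ℝ) ^ e * (B : ℝ) ^ e)))) := by ring
    rw [this]
    gcongr
  nlinarith
end Run7.h735
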