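import Mathlib
import Pool.Agent.Run7.h735.Free
import Pool.Agent.Run7.h735.Count
import Pool.Agent.Run7.h735.ThreeCount

set_option autoImplicit false

namespace Run7.h735

open Finset

lemma finite_box {k : ℕ} (B : ℕ) (P : (Fin k → ℕ) → Prop) :
    {b : Fin k → ℕ | (∀ i, b i ≤ B) ∧ P b}.Finite := by
  apply Set.Finite.subset (s := ((Fintype.piFinset fun _ : Fin k => range (B + 1) :
    Finset (Fin k → ℕ)) : Set (Fin k → ℕ))) (Finset.finite_toSet _)
  rintro b ⟨hb, -⟩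
  simp only [Fintype.coe_piFinset, Set.mem_pi, Set.mem_univ, mem_coe, mem_range, true_imp_iff]
  intro i
  have := hb i
  omega

lemma notFree_imp {k : ℕ} (m b : Fin k → ℕ) (h : ¬ IsFree m b) :
    ∃ u v : List (Fin k), u ≠ v ∧
      (u.map (fun i => (!![m i, b i; 0, 1] : Matrix (Fin 2) (Fin 2) ℕ))).prod
      = (v.map (fun i => (!![m i, b i; 0, 1] : Matrix (Fin 2) (Fin 2) ℕ))).prod := by
  simp only [IsFree] at h
  push Not at h
  obtain ⟨u, v, -, -, h1, h2⟩ := h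
  exact ⟨u, v, h2, h1⟩

theorem general (k : ℕ) (m : Fin k → ℕ) (hm : ∀ i, 2 ≤ m i) (s : ℝ) (hs : 0 ≤ s)
    (hs2 : s < 1 / 2) (hsum : ∑ i, (m i : ℝ) ^ (-s) ≤ 1) :
    ∃ C : ℝ, ∀ B : ℕ, 1 ≤ B →
      ({b : Fin k → ℕ | (∀ i, b i ≤ B) ∧ ¬ IsFree m b}.ncard : ℝ)
        ≤ C * (B : ℝ) ^ ((k : ℝ) - 1 + 2 * s) := by
  cases k with
  | zero =>
    refine ⟨0, fun B _ => ?_⟩
    have : {b : Fin 0 → ℕ | (∀ i, b i ≤ B) ∧ ¬ IsFree m b} = ∅ := by
      ext b
      simp only [Set.mem_ofPred_eq, Set.mem_empty_iff_false, iff_false, not_and, not_not]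
      intro _ u v hu
      cases u with
      | nil => exact absurd rfl hu
      | cons i _ => exact i.elim0
    rw [this]
    simp
  | succ k' =>
    set M : ℕ := univ.sup m
    have hM : ∀ i, m i ≤ M := fun i => le_sup (mem_univ i)
    refine ⟨(2 * M : ℝ) ^ (2 * s) * 2 ^ k' * (4 * M + 1), fun B hB => ?_⟩
    have h1 := card_bound m hm s hs hs2 hsum M hM B hB
    have h2 : ({b : Fin (k' + 1) → ℕ | (∀ i, b i ≤ B) ∧ ¬ IsFree m b}.ncard : ℝ) ≤
      ({b : Fin (k' + 1) → ℕ | (∀ i, b i ≤ B) ∧ ∃ u v : List (Fin (k' + 1)), u ≠ v ∧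
      (u.map (fun i => (!![m i, b i; 0, 1] : Matrix (Fin 2) (Fin 2) ℕ))).prod
      = (v.map (fun i => (!![m i, b i; 0, 1] : Matrix (Fin 2) (Fin 2) ℕ))).prod}.ncard : ℝ) := by
      have : {b : Fin (k' + 1) → ℕ | (∀ i, b i ≤ B) ∧ ¬ IsFree m b}.ncard ≤
        {b : Fin (k' + 1) → ℕ | (∀ i, b i ≤ B) ∧ ∃ u v : List (Fin (k' + 1)), u ≠ v ∧
        (u.map (fun i => (!![m i, b i; 0, 1] : Matrix (Fin 2) (Fin 2) ℕ))).prod
        = (v.map (fun i => (!![m i, b i; 0, 1] : Matrix (Fin 2) (Fin 2) ℕ))).prod}.ncard := by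
        apply Set.ncard_le_ncard _ (finite_box B _)
        rintro b ⟨hb, h⟩
        exact ⟨hb, notFree_imp m b h⟩
      exact_mod_cast this
    refine le_trans h2 (le_trans h1 (le_of_eq ?_))
    congr 2
    push_cast
    ring

lemma lower (m : Fin 3 → ℕ) (hm : ∀ i, 2 ≤ m i) :
    ∃ c : ℝ, 0 < c ∧ ∀ B : ℕ,
      c * (B : ℝ) ^ 2 ≤ ({b : Fin 3 → ℕ | (∀ i, b i ≤ B) ∧ ¬ IsFree m b}.ncard : ℝ) := by
  classical
  set M : ℕ := univ.sup m
  have hM : ∀ i, m i ≤ M := fun i => le_sup (mem_univ i)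
  have hM2 : 2 ≤ M := le_trans (hm 0) (hM 0)
  have hM0 : (2 : ℝ) ≤ M := by exact_mod_cast hM2
  refine ⟨1 / M, by positivity, fun B => ?_⟩
  have h1 : (range (B / M + 1) ×ˢ range (B + 1)).card
      ≤ {b : Fin 3 → ℕ | (∀ i, b i ≤ B) ∧ ¬ IsFree m b}.ncard := by
    rw [← Set.ncard_coe_finset]
    apply Set.ncard_le_ncard_of_injOn
      (fun p : ℕ × ℕ => ![(m 0 - 1) * p.1, (m 1 - 1) * p.1, p.2]) _ _ (finite_box B _)
    · rintro ⟨x, y⟩ hxy
      simp only [coe_product, Set.mem_prod, mem_coe, mem_range] at hxy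
      obtain ⟨hx, hy⟩ := hxy
      have hxB : M * x ≤ B := by
        have : x ≤ B / M := by omega
        calc M * x ≤ M * (B / M) := Nat.mul_le_mul_left _ this
          _ ≤ B := Nat.mul_div_le B M
      refine ⟨?_, ?_⟩
      · intro i
        fin_cases i
        · have := hM 0
          simp
          calc (m 0 - 1) * x ≤ M * x := Nat.mul_le_mul_right _ (by omega)
            _ ≤ B := hxB
        · have := hM 1
          simp
          calc (m 1 - 1) * x ≤ M * x := Nat.mul_le_mul_right _ (by omega)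
            _ ≤ B := hxB
        · simp
          omega
      · intro hfree
        have := hfree [0, 1] [1, 0] (by simp) (by simp) (by
          obtain ⟨p, hp⟩ := Nat.exists_eq_add_of_le (hm 0)
          obtain ⟨q, hq⟩ := Nat.exists_eq_add_of_le (hm 1)
          simp only [List.map_cons, List.map_nil, List.prod_cons, List.prod_nil, mul_one,
            Matrix.mul_fin_two, Matrix.cons_val_zero, Matrix.cons_val_one, hp, hq]
          have e1 : 2 + p - 1 = p + 1 := by omega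
          have e2 : 2 + q - 1 = q + 1 := by omega
          rw [e1, e2]
          ext i j
          fin_cases i <;> fin_cases j <;> simp <;> ring
          )
        simp at this
    · rintro ⟨x, y⟩ _ ⟨x', y'⟩ _ h
      have e0 := congrFun h 0
      have e2 := congrFun h 2
      simp at e0 e2
      have h0 := hm 0
      rcases e0 with e0 | e0
      · rw [e0, e2]
      · omega
  have h2 : ((range (B / M + 1) ×ˢ range (B + 1)).card : ℝ)
      ≤ ({b : Fin 3 → ℕ | (∀ i, b i ≤ B) ∧ ¬ IsFree m b}.ncard : ℝ) := by exact_mod_cast h1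
  refine le_trans ?_ h2
  simp only [card_product, card_range]
  push_cast
  have h3 : (B : ℝ) / M ≤ ((B / M : ℕ) : ℝ) + 1 := by
    have := Nat.lt_floor_add_one ((B : ℝ) / M)
    rw [Nat.floor_div_eq_div] at this
    exact this.le
  have hB0 : (0 : ℝ) ≤ B := by positivity
  calc 1 / (M : ℝ) * (B : ℝ) ^ 2 = (B : ℝ) / M * B := by ring
    _ ≤ (((B / M : ℕ) : ℝ) + 1) * ((B : ℝ) + 1) := by
      apply mul_le_mul h3 (by linarith) hB0 (by positivity)

theorem three (m : Fin 3 → ℕ) (hm : ∀ i, 2 ≤ m i) (s : ℝ) (hs : 0 ≤ s)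
    (hs2 : s < 1 / 2) (hs4 : s ≠ 1 / 4) (hsum : ∑ i, (m i : ℝ) ^ (-s) ≤ 1) :
    ∃ c C : ℝ, 0 < c ∧ ∀ B : ℕ, 1 ≤ B →
      c * (B : ℝ) ^ 2 ≤ ({b : Fin 3 → ℕ | (∀ i, b i ≤ B) ∧ ¬ IsFree m b}.ncard : ℝ) ∧
      ({b : Fin 3 → ℕ | (∀ i, b i ≤ B) ∧ ¬ IsFree m b}.ncard : ℝ)
        ≤ C * (B : ℝ) ^ (max 2 (1 + 4 * s)) := by
  obtain ⟨c, hc, hl⟩ := lower m hm
  obtain ⟨C, hC, hu⟩ := three_upper m hm s hs hs2 hs4 hsum
  refine ⟨c, C, hc, fun B hB => ⟨hl B, le_trans ?_ (hu B hB)⟩⟩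
  have : {b : Fin 3 → ℕ | (∀ i, b i ≤ B) ∧ ¬ IsFree m b}.ncard ≤
    {b : Fin 3 → ℕ | (∀ i, b i ≤ B) ∧ ∃ u v : List (Fin 3), u ≠ v ∧
    (u.map (fun i => (!![m i, b i; 0, 1] : Matrix (Fin 2) (Fin 2) ℕ))).prod
    = (v.map (fun i => (!![m i, b i; 0, 1] : Matrix (Fin 2) (Fin 2) ℕ))).prod}.ncard := by
    apply Set.ncard_le_ncard _ (finite_box B _)
    rintro b ⟨hb, h⟩
    exact ⟨hb, notFree_imp m b h⟩
  exact_mod_cast this

end Run7.h735
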